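import Pool.Agent.H7.HD.Targets12
import Pool.Agent.H64.HDA.DN
import Pool.Agent.H63.HDA.LI

/-!
# LIV of hd8_modules: limits of sets along a normal measure (MP_e37c09_lc)
-/

open Ordinal Cardinal Order Set
open scoped ZFSet

universe u

namespace Pool.Agent.H33.HDB.LIV

open _root_.HD
open Pool.Agent.H64.HDA.DN (do_sInf nm_not nm_ne ds_compl ds_inter)
open Pool.Agent.H63.HDA.LI (dzc)
open Pool.Agent.H3.HD.DM (dz_hod)

/-! ## Definability -/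

theorem od_V (a : Ordinal.{u}) : OD (V_ a) := by
  refine OD.of_dz ?_
  refine (DZ.sub (a := a.toZFSet) (R := fun b v => b.IsOrdinal ∧ v 0 = V_ b.rank)
    (DZ.eqOrd a 0) ?_).congr fun v => ?_
  · exact (loc_V 0 1).dz
  · simp [ZFSet.isOrdinal_toZFSet, rank_toZFSet]

/-- substitution of the set with code `c b` -/
theorem doC {en : Ordinal.{u} → ZFSet.{u}} (hen : EN en) {c : Ordinal.{u} → Ordinal.{u}}
    (hc : DR fun a b => b = c a) {P : (ℕ → ZFSet.{u}) → Prop} (hP : DZ P) (i : ℕ) :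
    DO fun w => P (cons (en (c (w i))) (ov w)) := by
  obtain ⟨S, hS, hS'⟩ := dzc hen hc
  have h1 : DZ fun v => ∃ x, S (v i) x ∧ P (cons x v) := by
    refine DZ.ex (R := fun x v => S (v i) x ∧ P (cons x v)) ((hS (i + 1) 0).and ?_)
    refine hP.congr fun v => ?_
    rw [cons_eta]
  refine h1.do.congr fun w => ?_
  constructor
  · intro h
    exact ⟨_, (hS' _ _).2 rfl, h⟩
  · rintro ⟨x, hx, h⟩
    rw [(hS' _ _).1 hx] at h
    exact h

/-- substitution of the sets with codes `c b` and `a` -/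
theorem doC2 {en : Ordinal.{u} → ZFSet.{u}} (hen : EN en) {c : Ordinal.{u} → Ordinal.{u}}
    (hc : DR fun a b => b = c a) {P : (ℕ → ZFSet.{u}) → Prop} (hP : DZ P) (i j : ℕ) :
    DO fun w => P (cons (en (c (w i))) (cons (en (w j)) (ov w))) := by
  obtain ⟨S, hS, hS'⟩ := dzc hen hc
  have h1 : DZ fun v => ∃ x, ((v j).IsOrdinal ∧ x = en (v j).rank) ∧ ∃ y, S (v i) y ∧
      P (cons y (cons x v)) := by
    refine DZ.ex (R := fun x v => ((v j).IsOrdinal ∧ x = en (v j).rank) ∧ ∃ y, S (v i) y ∧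
      P (cons y (cons x v))) (DZ.and ?_ ?_)
    · exact hen.dz.ren fun n => if n = 0 then j + 1 else 0
    refine DZ.ex (R := fun y v => S (v (i + 1)) y ∧
      P (cons y (cons (v 0) fun n => v (n + 1)))) ((hS (i + 2) 0).and ?_)
    refine hP.congr fun v => ?_
    have h : (cons (v (0 + 1)) fun n => v (n + 1 + 1)) = fun n => v (n + 1) := by
      funext n
      cases n <;> rfl
    rw [h, cons_eta]
  refine h1.do.congr fun w => ?_
  have e1 : (ov w j).rank = w j := rank_toZFSet _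
  rw [e1]
  constructor
  · intro h
    exact ⟨_, ⟨ZFSet.isOrdinal_toZFSet _, rfl⟩, _, (hS' _ _).2 rfl, h⟩
  · rintro ⟨x, ⟨-, rfl⟩, y, hy, h⟩
    rw [(hS' _ _).1 hy] at h
    exact h

/-- the predicate `v i ∈ V_ (v j)` -/
theorem dzVm (i j : ℕ) :
    DZ.{u} fun v => ∃ t, ((v j).IsOrdinal ∧ t = V_ (v j).rank) ∧ v i ∈ t :=
  DZ.ex (R := fun t v => ((v j).IsOrdinal ∧ t = V_ (v j).rank) ∧ v i ∈ t)
    (DZ.and (loc_V (j + 1) 0).dz (DZ.mem (i + 1) 0))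

theorem dzVs (i j : ℕ) :
    DZ.{u} fun v => ∃ t, ((v j).IsOrdinal ∧ t = V_ (v j).rank) ∧ v i ⊆ t :=
  DZ.ex (R := fun t v => ((v j).IsOrdinal ∧ t = V_ (v j).rank) ∧ v i ⊆ t)
    (DZ.and (loc_V (j + 1) 0).dz (Loc.sub (i + 1) 0).dz)

theorem exV {b : Ordinal.{u}} {p : ZFSet.{u} → Prop} :
    (∃ t, ((b.toZFSet).IsOrdinal ∧ t = V_ (b.toZFSet).rank) ∧ p t) ↔ p (V_ b) := by
  rw [rank_toZFSet]
  constructor
  · rintro ⟨t, ⟨-, rfl⟩, h⟩
    exact h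
  · intro h
    exact ⟨_, ⟨ZFSet.isOrdinal_toZFSet _, rfl⟩, h⟩

theorem X (hINA : T_INA.{u}) : T_LIV.{u} := by
  intro en hen κ W hW c hc hV
  obtain ⟨Sc, hSc, hSc'⟩ := dzc hen hc
  -- the limit
  let S : ZFSet.{u} := ZFSet.sep (fun z => HOD z ∧ os κ {b | z ∈ en (c b)} ∈ W) (V_ κ)
  have hSm : ∀ z, z ∈ S ↔ z ∈ V_ κ ∧ HOD z ∧ os κ {b | z ∈ en (c b)} ∈ W := fun z =>
    ZFSet.mem_sep
  have hSod : OD S := by
    refine OD.of_mem (P := fun v => v 0 ∈ V_ κ ∧ HOD (v 0) ∧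
      ∃ z ∈ W, ∀ b, b ∈ z ↔ b ∈ κ.toZFSet ∧ ∃ x, Sc b x ∧ v 0 ∈ x) ?_ fun v => ?_
    · refine DZ.od (R := fun k v => v 0 ∈ V_ κ ∧ HOD (v 0) ∧
        ∃ z ∈ W, ∀ b, b ∈ z ↔ b ∈ k ∧ ∃ x, Sc b x ∧ v 0 ∈ x) (OD.ordinal κ) ?_
      refine DZ.od (R := fun W v => v 1 ∈ V_ κ ∧ HOD (v 1) ∧
        ∃ z ∈ W, ∀ b, b ∈ z ↔ b ∈ v 0 ∧ ∃ x, Sc b x ∧ v 1 ∈ x) hW.hod.od ?_
      refine DZ.od (R := fun U v => v 2 ∈ U ∧ HOD (v 2) ∧
        ∃ z ∈ v 0, ∀ b, b ∈ z ↔ b ∈ v 1 ∧ ∃ x, Sc b x ∧ v 2 ∈ x) (od_V κ) ?_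
      refine DZ.and (DZ.mem 3 0) (DZ.and (dz_hod 3) ?_)
      exact DZ.exMem 1 (DZ.all (DZ.iff (DZ.mem 0 1) (DZ.and (DZ.mem 0 4) (DZ.ex (DZ.and (hSc 1 0)
        (DZ.mem 6 0))))))
    · rw [hSm]
      refine and_congr_right fun _ => and_congr_right fun _ => ?_
      have key : ∀ b : Ordinal.{u}, (∃ x, Sc b.toZFSet x ∧ v 0 ∈ x) ↔ v 0 ∈ en (c b) := by
        intro b
        constructor
        · rintro ⟨x, hx, h⟩
          rwa [(hSc' b x).1 hx] at h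
        · intro h
          exact ⟨_, (hSc' b _).2 rfl, h⟩
      constructor
      · rintro ⟨z, hz, h⟩
        have : os κ {b | v 0 ∈ en (c b)} = z := by
          ext d
          rw [mem_os, h]
          constructor
          · rintro ⟨b, hb, h1, rfl⟩
            exact ⟨toZFSet_mem_toZFSet_iff.2 hb, (key b).2 h1⟩
          · rintro ⟨h1, h2⟩
            obtain ⟨b, hb, rfl⟩ := mem_toZFSet_iff.1 h1
            exact ⟨b, hb, (key b).1 h2, rfl⟩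
        rwa [this]
      · intro h
        refine ⟨_, h, fun d => ?_⟩
        rw [mem_os]
        constructor
        · rintro ⟨b, hb, h1, rfl⟩
          exact ⟨toZFSet_mem_toZFSet_iff.2 hb, (key b).2 h1⟩
        · rintro ⟨h1, h2⟩
          obtain ⟨b, hb, rfl⟩ := mem_toZFSet_iff.1 h1
          exact ⟨b, hb, (key b).1 h2, rfl⟩
  refine ⟨S, ⟨hod_iff.2 ⟨hSod, fun y hy => ((hSm y).1 hy).2.1⟩, fun y hy => ((hSm y).1 hy).1⟩, ?_⟩
  -- definable sets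
  have hM : DS {b | VH b (en (c b))} := by
    refine (doC hen hc ((dz_hod 0).and (dzVs 0 1)) 0).congr fun w => ?_
    exact and_congr_right fun _ => (exV (b := w 0) (p := fun t => en (c (w 0)) ⊆ t)).symm
  have hG : DS {b | S ∩ V_ b = en (c b)} := by
    have h1 : DZ.{u} fun v => ∃ t, ((v 1).IsOrdinal ∧ t = V_ (v 1).rank) ∧
        ∀ z, z ∈ v 0 ↔ z ∈ S ∧ z ∈ t := by
      refine DZ.ex (R := fun t v => ((v 1).IsOrdinal ∧ t = V_ (v 1).rank) ∧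
        ∀ z, z ∈ v 0 ↔ z ∈ S ∧ z ∈ t) (DZ.and (loc_V 2 0).dz ?_)
      refine DZ.all (R := fun z v => z ∈ v 1 ↔ z ∈ S ∧ z ∈ v 0) ((DZ.mem 0 2).iff
        (DZ.and ?_ (DZ.mem 0 1)))
      exact DZ.od (R := fun b v => v 0 ∈ b) hSod (DZ.mem 1 0)
    refine (doC hen hc h1 0).congr fun w => ?_
    refine Iff.trans ?_ (exV (b := w 0) (p := fun t => ∀ z, z ∈ en (c (w 0)) ↔ z ∈ S ∧ z ∈ t)).symm
    constructor
    · intro h z
      have h' : S ∩ V_ (w 0) = en (c (w 0)) := h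
      rw [← h', ZFSet.mem_inter]
    · intro h
      show S ∩ V_ (w 0) = en (c (w 0))
      ext z
      rw [h z, ZFSet.mem_inter]
  -- the symmetric difference
  let A : Ordinal.{u} → Ordinal.{u} → Prop := fun a b => HOD (en a) ∧ en a ∈ V_ b ∧
    ¬ (en a ∈ S ↔ en a ∈ en (c b))
  have hA : DR A := by
    have h1 : DZ.{u} fun v => HOD (v 1) ∧
        (∃ t, ((v 3).IsOrdinal ∧ t = V_ (v 3).rank) ∧ v 1 ∈ t) ∧ ¬ (v 1 ∈ S ↔ v 1 ∈ v 0) := by
      refine (dz_hod 1).and ((dzVm 1 3).and (DZ.not (DZ.iff ?_ (DZ.mem 1 0))))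
      exact DZ.od (R := fun b v => v 1 ∈ b) hSod (DZ.mem 2 0)
    refine (doC2 hen hc h1 1 0).congr fun w => ?_
    refine and_congr_right fun _ => and_congr ?_ Iff.rfl
    exact (exV (b := w 1) (p := fun t => en (w 0) ∈ t)).symm
  let p : Ordinal.{u} → Ordinal.{u} := fun b => sInf {a | A a b}
  have hp : DR fun a b => b = p a :=
    do_sInf (S := fun z w => A z (w 0)) (hA.s2 0 1) 1
  by_contra hcon
  have h1 := nm_not hW hG hcon
  have hGc := ds_compl hG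
  have hX0 := ds_inter hM hGc
  have h2 := hW.int _ _ hM hGc hV h1
  have h3 : ∀ b, b ∈ {b | VH b (en (c b))} ∩ {b | S ∩ V_ b = en (c b)}ᶜ → A (p b) b := by
    rintro b ⟨hb1, hb2⟩
    have hb1' : VH b (en (c b)) := hb1
    have hex : ∃ z, HOD z ∧ z ∈ V_ b ∧ ¬ (z ∈ S ↔ z ∈ en (c b)) := by
      by_contra hno
      push Not at hno
      apply hb2
      show S ∩ V_ b = en (c b)
      ext z
      rw [ZFSet.mem_inter]
      constructor
      · rintro ⟨hz1, hz2⟩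
        exact (hno z ((hSm z).1 hz1).2.1 hz2).1 hz1
      · intro hz
        have hz2 := hb1'.2 hz
        exact ⟨(hno z ((hod_iff.1 hb1'.1).2 z hz) hz2).2 hz, hz2⟩
    obtain ⟨z, hz1, hz2, hz3⟩ := hex
    obtain ⟨a, rfl⟩ := (hen.od z).1 hz1.od
    exact csInf_mem (s := {a | A a b}) ⟨a, hz1, hz2, hz3⟩
  -- first application of normality
  have hRr : DR fun r b => en (p b) ⊆ V_ r := by
    refine (doC hen hp (dzVs 0 1) 1).congr fun w => ?_
    exact (exV (b := w 0) (p := fun t => en (p (w 1)) ⊆ t)).symm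
  obtain ⟨r, hr, hrW⟩ : ∃ r < κ, os κ {b | en (p b) ⊆ V_ r} ∈ W := by
    by_contra hno
    push Not at hno
    have h4 := hW.nrm (fun r b => ¬ en (p b) ⊆ V_ r) hRr.not fun r hr =>
      nm_not hW (DO.sect1 hRr r) (hno r hr)
    have hds : DS {b | ∀ r < b, ¬ en (p b) ⊆ V_ r} :=
      DO.allLt (R := fun r w => ¬ en (p (w 0)) ⊆ V_ r) 0
        (DO.s2 (X := fun r b => en (p b) ⊆ V_ r) hRr 0 1).not
    have h5 := hW.int _ _ hX0 hds h2 h4
    obtain ⟨b, -, hb1, hb2⟩ := nm_ne hW (ds_inter hX0 hds) h5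
    have h6 := (h3 b hb1).2.1
    rw [ZFSet.mem_vonNeumann] at h6
    exact hb2 _ h6 (ZFSet.subset_vonNeumann.2 le_rfl)
  have hds1 : DS {b | en (p b) ⊆ V_ r} := DO.sect1 hRr r
  -- the enumeration
  obtain ⟨η, hη, e, he, hηe⟩ := hINA en hen κ W hW (succ r) (hW.lim.succ_lt hr)
  have hRi : DR fun i b => en (p b) = en (e i) := by
    obtain ⟨Se, hSe, hSe'⟩ := dzc hen he
    have h7 : DZ.{u} fun v => Se (v 1) (v 0) := hSe 1 0
    refine (doC hen hp h7 1).congr fun w => ?_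
    exact (hSe' (w 0) (en (p (w 1)))).symm
  have hX1 := ds_inter hX0 hds1
  have h8 := hW.int _ _ hX0 hds1 h2 hrW
  have hgt : DS {b : Ordinal.{u} | η < b} := DO.gtc 0 η
  have hX2 := ds_inter hX1 hgt
  have h9 := hW.int _ _ hX1 hgt h8 (hW.gt η hη)
  obtain ⟨i, hi, hiW⟩ : ∃ i < κ, os κ {b | en (p b) = en (e i)} ∈ W := by
    by_contra hno
    push Not at hno
    have h4 := hW.nrm (fun i b => ¬ en (p b) = en (e i)) hRi.not fun i hi =>
      nm_not hW (DO.sect1 hRi i) (hno i hi)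
    have hds : DS {b | ∀ i < b, ¬ en (p b) = en (e i)} :=
      DO.allLt (R := fun i w => ¬ en (p (w 0)) = en (e i)) 0
        (DO.s2 (X := fun i b => en (p b) = en (e i)) hRi 0 1).not
    have h5 := hW.int _ _ hX2 hds h9 h4
    obtain ⟨b, -, ⟨⟨hb1, hb2⟩, hb3⟩, hb4⟩ := nm_ne hW (ds_inter hX2 hds) h5
    have h6 : en (p b) ∈ V_ (succ r) := by
      rw [ZFSet.mem_vonNeumann, lt_succ_iff]
      exact ZFSet.subset_vonNeumann.1 hb2
    obtain ⟨i, hi, hi2⟩ := hηe _ (h3 b hb1).1 h6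
    exact hb4 i (hi.trans hb3) hi2
  have hds2 : DS {b | en (p b) = en (e i)} := DO.sect1 hRi i
  have hX3 := ds_inter hX0 hds2
  have h10 := hW.int _ _ hX0 hds2 h2 hiW
  -- the point
  have hZ : DS {b | en (e i) ∈ en (c b)} := by
    have h1 : DZ.{u} fun v => en (e i) ∈ v 0 :=
      DZ.od (R := fun z v => z ∈ v 0) ((hen.od _).2 ⟨_, rfl⟩) (DZ.mem 0 1)
    exact doC hen hc h1 0
  by_cases hzW : os κ {b | en (e i) ∈ en (c b)} ∈ W
  · have h11 := hW.int _ _ hX3 hZ h10 hzW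
    obtain ⟨b, hbκ, ⟨hb1, hb2⟩, hb3⟩ := nm_ne hW (ds_inter hX3 hZ) h11
    obtain ⟨g1, g2, g3⟩ := h3 b hb1
    have hb2' : en (p b) = en (e i) := hb2
    rw [hb2'] at g1 g2 g3
    refine g3 (iff_of_true ((hSm _).2 ⟨?_, g1, hzW⟩) hb3)
    rw [ZFSet.mem_vonNeumann] at g2 ⊢
    exact g2.trans hbκ
  · have h11 := hW.int _ _ hX3 (ds_compl hZ) h10 (nm_not hW hZ hzW)
    obtain ⟨b, hbκ, ⟨hb1, hb2⟩, hb3⟩ := nm_ne hW (ds_inter hX3 (ds_compl hZ)) h11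
    obtain ⟨g1, g2, g3⟩ := h3 b hb1
    have hb2' : en (p b) = en (e i) := hb2
    rw [hb2'] at g1 g2 g3
    exact g3 (iff_of_false (fun h => hzW ((hSm _).1 h).2.2) hb3)

end Pool.Agent.H33.HDB.LIV
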